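import Pool.Agent.W763.Tr.Grp

/-!
The characterisation of the traces by mixing rates.
-/

set_option autoImplicit false

open MeasureTheory Filter Topology Finset
open scoped ENNReal NNReal ComplexOrder

namespace Pool.Agent.W763.Tr

open Pool.Agent.W764.FB

section

variable {c : ℤ → ℂ} {μ : Measure T} [IsProbabilityMeasure μ]

/-- the image measure -/
noncomputable def im (μ : Measure T) (N : ℕ) : Measure T := μ.map (fun x : T => N • x)

lemma prob_im (N : ℕ) : IsProbabilityMeasure (im μ N) :=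
  Measure.isProbabilityMeasure_map (continuous_nsmul N).measurable.aemeasurable

lemma fc_im (hμ : ∀ n, ∫ x, fourier n x ∂μ = c n) (N : ℕ) (n : ℤ) : fc (im μ N) n = c (N * n) := by
  unfold fc im
  rw [integral_map_nsmul, hμ, mul_comm]

lemma corr_im (hμ : ∀ n, ∫ x, fourier n x ∂μ = c n) (N : ℕ) (m : ℤ) (a i b j : ℕ) :
    corr 2 3 (im μ N) m a i b j = c (N * m * (2 ^ a * 3 ^ i - 2 ^ b * 3 ^ j)) := by
  unfold corr
  simp_rw [conj_mul_fourier]
  have := fc_im hμ N (m * ((2 ^ a * 3 ^ i : ℕ) : ℤ) - m * ((2 ^ b * 3 ^ j : ℕ) : ℤ))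
  unfold fc at this
  rw [this]
  congr 1
  push_cast; ring

lemma mp_im (hμ : ∀ n, ∫ x, fourier n x ∂μ = c n) (N : ℕ) {p : ℕ} (hp : ∀ n, c (p * n) = c n) :
    MeasurePreserving (fun x : T => p • x) (im μ N) (im μ N) := by
  have := prob_im (μ := μ) N
  refine mp_nsmul (c := fun n => c (N * n)) (fun n => fc_im hμ N n) (fun n => ?_)
  rw [← hp (N * n)]
  congr 1; ring

lemma var_im (hμ : ∀ n, ∫ x, fourier n x ∂μ = c n) (h2 : ∀ n, c (2 * n) = c n)
    (h3 : ∀ n, c (3 * n) = c n) (N : ℕ)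
    (h : ∀ m : ℤ, ∃ C ε : ℝ, 0 < ε ∧ ∀ r L : ℕ, 1 ≤ r → 1 ≤ L →
      ‖∑ a ∈ range r, ∑ i ∈ range L, ∑ b ∈ range r, ∑ j ∈ range L,
        (c (N * m * (2 ^ a * 3 ^ i - 2 ^ b * 3 ^ j)) - ((‖c (N * m)‖ ^ 2 : ℝ) : ℂ))‖ ≤
        C * (r : ℝ) ^ (2 - ε) * L) : Var 2 3 (im μ N) := by
  have := prob_im (μ := μ) N
  intro m
  obtain ⟨C, ε, hε, hC⟩ := h m
  refine ⟨C, ε, hε, fun r L hr hL => ?_⟩
  have h1 := integral_cs (mp_im hμ N (p := 2) (by exact_mod_cast h2))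
    (mp_im hμ N (p := 3) (by exact_mod_cast h3)) m r L
  have h4 : (∑ u ∈ range r ×ˢ range L, ∑ v ∈ range r ×ˢ range L,
      (corr 2 3 (im μ N) m u.1 u.2 v.1 v.2 - ((‖fc (im μ N) m‖ ^ 2 : ℝ) : ℂ))) =
      ∑ a ∈ range r, ∑ i ∈ range L, ∑ b ∈ range r, ∑ j ∈ range L,
        (c (N * m * (2 ^ a * 3 ^ i - 2 ^ b * 3 ^ j)) - ((‖c (N * m)‖ ^ 2 : ℝ) : ℂ)) := by
    rw [sum_product]
    refine sum_congr rfl fun a _ => sum_congr rfl fun i _ => ?_
    rw [sum_product]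
    refine sum_congr rfl fun b _ => sum_congr rfl fun j _ => ?_
    rw [corr_im hμ, fc_im hμ]
  rw [h4] at h1
  refine le_trans ?_ (hC r L hr hL)
  rw [← h1, Complex.norm_real, Real.norm_eq_abs]
  exact le_abs_self _

lemma mix_im (hμ : ∀ n, ∫ x, fourier n x ∂μ = c n) (N : ℕ)
    (h : ∀ m : ℤ, ∃ C δ : ℝ, 0 < δ ∧ ∀ a i b j : ℕ,
      ‖c (N * m * (2 ^ a * 3 ^ i - 2 ^ b * 3 ^ j)) - ((‖c (N * m)‖ ^ 2 : ℝ) : ℂ)‖ ≤
        C / (1 + |(a : ℝ) - b| + |(i : ℝ) - j|) ^ (1 + δ)) : Mix 2 3 (im μ N) := by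
  intro m
  obtain ⟨C, δ, hδ, hC⟩ := h m
  refine ⟨C, δ, hδ, fun a i b j => ?_⟩
  rw [corr_im hμ, fc_im hμ]
  exact hC a i b j

end

lemma pow23_ne {a i b j : ℕ} (h : ¬ (a = b ∧ i = j)) : (2 : ℤ) ^ a * 3 ^ i - 2 ^ b * 3 ^ j ≠ 0 := by
  intro h0
  apply h
  have h1 : (2 ^ a * 3 ^ i : ℕ) = 2 ^ b * 3 ^ j := by
    have : (2 : ℤ) ^ a * 3 ^ i = 2 ^ b * 3 ^ j := sub_eq_zero.1 h0
    exact_mod_cast this
  exact mul_pow_inj Nat.prime_two (by norm_num) (by norm_num) h1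

/-- **The theorem.** -/
theorem main {s2 s3 t : Equiv.Perm ℚ} (hs2 : ∀ x, s2 x = 2 * x) (hs3 : ∀ x, s3 x = 3 * x)
    (ht : ∀ x, t x = x + 1) {G : Subgroup (Equiv.Perm ℚ)} (hG : G = Subgroup.closure {s2, s3, t})
    {τ : ℤ → G} (hτ : ∀ (k : ℤ) (x : ℚ), (τ k : Equiv.Perm ℚ) x = x + k)
    {φ : G → ℂ} (h1 : φ 1 = 1) (hcl : ∀ g h : G, φ (h * g * h⁻¹) = φ g) (hpd : PD φ) :
    List.TFAE [
      φ = Set.indicator ({1} : Set G) (fun _ => (1 : ℂ)) ∨
        FiniteDimensional ℂ (Submodule.span ℂ {F : G → ℂ | ∃ n : G,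
          (∃ r : ℚ, ∀ x : ℚ, (n : Equiv.Perm ℚ) x = x + r) ∧ F = fun x => φ (n * x)}),
      ∃ N : ℕ, 1 ≤ N ∧ ∀ m : ℤ, ∃ C δ : ℝ, 0 < δ ∧ ∀ a i b j : ℕ,
        ‖φ (τ (N * m * (2 ^ a * 3 ^ i - 2 ^ b * 3 ^ j))) - ((‖φ (τ (N * m))‖ ^ 2 : ℝ) : ℂ)‖ ≤
          C / (1 + |(a : ℝ) - b| + |(i : ℝ) - j|) ^ (1 + δ),
      ∃ N : ℕ, 1 ≤ N ∧ ∀ m : ℤ, ∃ C ε : ℝ, 0 < ε ∧ ∀ r L : ℕ, 1 ≤ r → 1 ≤ L →
        ‖∑ a ∈ range r, ∑ i ∈ range L, ∑ b ∈ range r, ∑ j ∈ range L,
          (φ (τ (N * m * (2 ^ a * 3 ^ i - 2 ^ b * 3 ^ j))) - ((‖φ (τ (N * m))‖ ^ 2 : ℝ) : ℂ))‖ ≤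
          C * (r : ℝ) ^ (2 - ε) * L] := by
  classical
  -- elements of the group
  have m2 : s2 ∈ G := by rw [hG]; exact Subgroup.subset_closure (by simp)
  have m3 : s3 ∈ G := by rw [hG]; exact Subgroup.subset_closure (by simp)
  let S2 : G := ⟨s2, m2⟩
  let S3 : G := ⟨s3, m3⟩
  have hS2 : ∀ x, (S2 : Equiv.Perm ℚ) x = (2 : ℤ) * x := fun x => by
    change s2 x = _; rw [hs2]; norm_num
  have hS3 : ∀ x, (S3 : Equiv.Perm ℚ) x = (3 : ℤ) * x := fun x => by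
    change s3 x = _; rw [hs3]; norm_num
  let S6 : G := S2 * S3
  have hS6 : ∀ x, (S6 : Equiv.Perm ℚ) x = 6 * x := fun x => by
    change s2 (s3 x) = _
    rw [hs2, hs3]; ring
  have h2 : ∀ n : ℤ, φ (τ (2 * n)) = φ (τ n) := fun n => by
    rw [← tau_conj hτ S2 2 hS2 n, hcl]
  have h3 : ∀ n : ℤ, φ (τ (3 * n)) = φ (τ n) := fun n => by
    rw [← tau_conj hτ S3 3 hS3 n, hcl]
  have hform : ∀ g : G, ∃ (a b : ℤ) (r : ℚ), Six r ∧
      ∀ x, (g : Equiv.Perm ℚ) x = 2 ^ a * 3 ^ b * x + r := fun g =>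
    form hs2 hs3 ht g (by rw [← hG]; exact g.2)
  have h0 : φ (τ 0) = 1 := by rw [tau_zero hτ, h1]
  obtain ⟨μ, hμp, hμ⟩ := herglotz (c := fun n => φ (τ n)) h0 (pdZ hτ hpd)
  -- the conclusion from the measure theorem
  have concl : ∀ N : ℕ, 1 ≤ N → Var 2 3 (im μ N) →
      (φ = Set.indicator ({1} : Set G) (fun _ => (1 : ℂ)) ∨
        FiniteDimensional ℂ (Submodule.span ℂ {F : G → ℂ | ∃ n : G,
          (∃ r : ℚ, ∀ x : ℚ, (n : Equiv.Perm ℚ) x = x + r) ∧ F = fun x => φ (n * x)})) := by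
    intro N hN hV
    rcases main_measure (c := fun n => φ (τ n)) hμ h2 hN hV with h | h
    · left
      have hz := all_zero hτ h1 hpd h2 hN h
      have hreg := eq_regular hτ h1 hcl hpd S6 hS6 hform hz
      funext g
      by_cases hg : g = 1
      · rw [hg, h1]; simp
      · rw [hreg g hg, Set.indicator_of_notMem]
        simpa using hg
    · right
      exact finite_dim hτ h1 hcl hpd S6 hS6 hform h2 h3 h
  -- the two forms of the first condition
  have hstart : (φ = Set.indicator ({1} : Set G) (fun _ => (1 : ℂ)) ∨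
        FiniteDimensional ℂ (Submodule.span ℂ {F : G → ℂ | ∃ n : G,
          (∃ r : ℚ, ∀ x : ℚ, (n : Equiv.Perm ℚ) x = x + r) ∧ F = fun x => φ (n * x)})) →
      (∀ n : ℤ, n ≠ 0 → φ (τ n) = 0) ∨ ∃ M : ℕ, 1 ≤ M ∧ ∀ n : ℤ, φ (τ (M * n)) = 1 := by
    rintro (h | h)
    · left
      intro n hn
      rw [h, Set.indicator_of_notMem]
      intro hmem
      have e : τ n = 1 := hmem
      have e2 := hτ n 0
      rw [e] at e2
      simp at e2
      exact hn (by exact_mod_cast e2.symm)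
    · right
      exact exists_kernel hτ hμ h2 h
  tfae_have 1 → 2 := by
    intro h
    rcases hstart h with h | ⟨M, hM, h⟩
    · refine ⟨1, le_rfl, fun m => ⟨1, 1, one_pos, fun a i b j => ?_⟩⟩
      have hpos : 0 < (1 + |(a : ℝ) - b| + |(i : ℝ) - j|) ^ ((1 : ℝ) + 1) := by positivity
      by_cases hm : m = 0
      · subst hm
        simp only [mul_zero, zero_mul, h0]
        simp only [norm_one, one_pow, Complex.ofReal_one, sub_self, norm_zero]
        positivity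
      · by_cases hab : a = b ∧ i = j
        · obtain ⟨rfl, rfl⟩ := hab
          rw [sub_self, mul_zero, h0, h _ (by simpa using hm)]
          simp
        · rw [h _ (mul_ne_zero (by simpa using hm) (pow23_ne hab)), h _ (by simpa using hm)]
          simp only [norm_zero, ne_eq, OfNat.ofNat_ne_zero, not_false_eq_true, zero_pow,
            Complex.ofReal_zero, sub_self]
          positivity
    · refine ⟨M, hM, fun m => ⟨0, 1, one_pos, fun a i b j => ?_⟩⟩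
      rw [mul_assoc, h, h]
      simp
  tfae_have 1 → 3 := by
    intro h
    rcases hstart h with h | ⟨M, hM, h⟩
    · refine ⟨1, le_rfl, fun m => ⟨1, 1, one_pos, fun r L hr hL => ?_⟩⟩
      have hexp : (r : ℝ) ^ ((2 : ℝ) - 1) = r := by
        rw [show (2 : ℝ) - 1 = 1 by norm_num, Real.rpow_one]
      rw [hexp, one_mul]
      by_cases hm : m = 0
      · subst hm
        simp only [mul_zero, zero_mul, h0, norm_one, one_pow, Complex.ofReal_one, sub_self,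
          sum_const_zero, norm_zero]
        positivity
      · have e : ∀ a ∈ range r, ∀ i ∈ range L, ∑ b ∈ range r, ∑ j ∈ range L,
            (φ (τ (((1 : ℕ) : ℤ) * m * (2 ^ a * 3 ^ i - 2 ^ b * 3 ^ j))) -
              ((‖φ (τ (((1 : ℕ) : ℤ) * m))‖ ^ 2 : ℝ) : ℂ)) = 1 := by
          intro a ha i hi
          rw [sum_eq_single_of_mem a ha, sum_eq_single_of_mem i hi]
          · rw [sub_self, mul_zero, h0, h _ (by simpa using hm)]
            simp
          · intro j _ hj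
            rw [h _ (mul_ne_zero (by simpa using hm) (pow23_ne (fun e => hj e.2.symm))),
              h _ (by simpa using hm)]
            simp
          · intro b _ hb
            refine sum_eq_zero fun j _ => ?_
            rw [h _ (mul_ne_zero (by simpa using hm) (pow23_ne (fun e => hb e.1.symm))),
              h _ (by simpa using hm)]
            simp
        rw [sum_congr rfl fun a ha => sum_congr rfl fun i hi => e a ha i hi]
        simp
    · refine ⟨M, hM, fun m => ⟨0, 1, one_pos, fun r L _ _ => ?_⟩⟩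
      simp only [mul_assoc, h]
      simp
  tfae_have 2 → 1 := by
    rintro ⟨N, hN, h⟩
    have := prob_im (μ := μ) N
    exact concl N hN (var_of_mix (mp_im hμ N (p := 2) (by exact_mod_cast h2))
      (mp_im hμ N (p := 3) (by exact_mod_cast h3)) (mix_im (c := fun n => φ (τ n)) hμ N h))
  tfae_have 3 → 1 := by
    rintro ⟨N, hN, h⟩
    exact concl N hN (var_im (c := fun n => φ (τ n)) hμ h2 h3 N h)
  tfae_finish

end Pool.Agent.W763.Tr
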