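import Pool.Agent.W763.Tr.Herg
import Pool.Agent.W764.FB.Mix
import Pool.Agent.W764.FB.Var

/-!
The measure part: probability measures on the circle with diffusive sums.
-/

set_option autoImplicit false

open MeasureTheory Filter Topology Finset
open scoped ENNReal NNReal ComplexOrder

namespace Pool.Agent.W763.Tr

open Pool.Agent.W764.FB

lemma integral_map_nsmul (μ : Measure T) (k : ℕ) (n : ℤ) :
    ∫ x, fourier n x ∂(μ.map (fun x : T => k • x)) = ∫ x, fourier (n * k) x ∂μ := by
  rw [integral_map (continuous_nsmul k).measurable.aemeasurable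
    (fourier n).continuous.aestronglyMeasurable]
  simp_rw [fourier_smul]

lemma mp_nsmul {c : ℤ → ℂ} {μ : Measure T} [IsProbabilityMeasure μ]
    (hμ : ∀ n, ∫ x, fourier n x ∂μ = c n) {k : ℕ} (hk : ∀ n, c (n * k) = c n) :
    MeasurePreserving (fun x : T => k • x) μ μ := by
  refine ⟨(continuous_nsmul k).measurable, ?_⟩
  have : IsProbabilityMeasure (μ.map (fun x : T => k • x)) :=
    Measure.isProbabilityMeasure_map (continuous_nsmul k).measurable.aemeasurable
  apply ext_fourier
  intro m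
  rw [integral_map_nsmul, hμ, hμ, hk]

/-- atoms of a measure invariant under doubling are torsion points -/
lemma torsion {ν : Measure T} [IsProbabilityMeasure ν]
    (h2 : MeasurePreserving (fun x : T => 2 • x) ν ν) {y : T} (hy : ν {y} ≠ 0) :
    ∃ N : ℕ, 1 ≤ N ∧ N • y = 0 := by
  have hp : ∀ a : ℕ, MeasurePreserving (fun x : T => (2 ^ a) • x) ν ν := by
    intro a
    exact Pool.Agent.H847R3.XpXq.mp_pow h2 a
  have hge : ∀ a : ℕ, ν {y} ≤ ν {(2 ^ a) • y} := by
    intro a
    have h1 := (hp a).measure_preimage (measurableSet_singleton ((2 ^ a) • y)).nullMeasurableSet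
    rw [← h1]
    exact measure_mono (by intro z hz; rw [Set.mem_singleton_iff] at hz; subst hz; simp)
  have hninj : ¬ Function.Injective (fun a : ℕ => (2 ^ a) • y) := by
    intro hinj
    have hfin : ∀ n : ℕ, (n : ℝ≥0∞) * ν {y} ≤ 1 := by
      intro n
      have h1 : ∑ a ∈ range n, ν {(2 ^ a) • y} ≤ 1 := by
        rw [← measure_biUnion_finset _ (fun a _ => measurableSet_singleton _)]
        · exact prob_le_one
        · intro a _ b _ hab
          exact Set.disjoint_singleton.2 (fun h => hab (hinj h))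
      refine le_trans ?_ h1
      calc (n : ℝ≥0∞) * ν {y} = ∑ _a ∈ range n, ν {y} := by simp
        _ ≤ _ := sum_le_sum fun a _ => hge a
    have h3 : (ν {y}).toReal > 0 := ENNReal.toReal_pos hy (measure_ne_top _ _)
    obtain ⟨n, hn⟩ := exists_nat_gt (1 / (ν {y}).toReal)
    rw [div_lt_iff₀ h3] at hn
    have h4 := ENNReal.toReal_mono ENNReal.one_ne_top (hfin n)
    rw [ENNReal.toReal_mul, ENNReal.toReal_natCast, ENNReal.toReal_one] at h4
    linarith
  rw [Function.Injective] at hninj
  push Not at hninj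
  obtain ⟨a, b, hab, hne⟩ := hninj
  wlog hlt : a < b generalizing a b
  · exact this b a hab.symm hne.symm (lt_of_le_of_ne (not_lt.1 hlt) hne.symm)
  have hpow : 2 ^ a < 2 ^ b := Nat.pow_lt_pow_right (by norm_num) hlt
  refine ⟨2 ^ b - 2 ^ a, by omega, ?_⟩
  have : (2 ^ b - 2 ^ a + 2 ^ a) • y = (2 ^ b) • y := by
    congr 1
    omega
  rw [add_nsmul] at this
  have hab' : (2 ^ a) • y = (2 ^ b) • y := hab
  rw [hab'] at this
  exact add_eq_right.1 this

lemma fourier_coe_pow (k : ℕ) (x : T) : fourier (k : ℤ) x = (fourier 1 x) ^ k := by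
  induction k with
  | zero => simp
  | succ k ih => rw [pow_succ, ← ih, Nat.cast_succ, fourier_add]

lemma fourier_torsion {y : T} {N : ℕ} (hN : N • y = 0) (m : ℤ) (k : ℕ) :
    fourier (m * N) (k • y) = 1 := by
  have h1 : fourier (m * N) (k • y) = fourier (m * k) (N • y) := by
    rw [fourier_smul, fourier_smul]
    congr 1; ring
  rw [h1, hN]
  simp

/-- the dichotomy -/
theorem main_measure {c : ℤ → ℂ} {μ : Measure T} [IsProbabilityMeasure μ]
    (hμ : ∀ n, ∫ x, fourier n x ∂μ = c n) (h2 : ∀ n, c (2 * n) = c n) {N : ℕ} (hN : 1 ≤ N)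
    (hV : Var 2 3 (μ.map (fun x : T => N • x))) :
    (∀ m : ℤ, m ≠ 0 → c (N * m) = 0) ∨ ∃ M : ℕ, 1 ≤ M ∧ ∀ n : ℤ, c (M * n) = 1 := by
  set ν := μ.map (fun x : T => N • x) with hν
  have : IsProbabilityMeasure ν :=
    Measure.isProbabilityMeasure_map (continuous_nsmul N).measurable.aemeasurable
  have hc : ∀ n : ℤ, ∫ x, fourier n x ∂ν = c (N * n) := by
    intro n
    rw [hν, integral_map_nsmul, hμ, mul_comm]
  have hm2 : MeasurePreserving (fun x : T => 2 • x) ν ν := by
    refine mp_nsmul (c := fun n => c (N * n)) hc (fun n => ?_)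
    change c (N * (n * ((2 : ℕ) : ℤ))) = c (N * n)
    rw [← h2 (N * n)]
    congr 1
    push_cast; ring
  by_cases hna : ∀ x, ν {x} = 0
  · left
    intro m hm
    have h1 := eq_volume_of_var Nat.prime_two (by norm_num) (by norm_num) ν hna hm2 hV
    rw [← hc, h1]
    exact fc_vol hm
  · right
    push Not at hna
    obtain ⟨y, hy⟩ := hna
    obtain ⟨N1, hN1, hy1⟩ := torsion hm2 hy
    refine ⟨N * N1, Nat.mul_pos (by omega) (by omega), fun n => ?_⟩
    obtain ⟨C, ε, hε, hC⟩ := hV (n * N1)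
    have hcs : ∀ r : ℕ, cs 2 3 ν (n * N1) r 1 y = r * (1 - c (N * (n * N1))) := by
      intro r
      unfold cs
      rw [sum_congr rfl (g := fun _ => (1 - c (N * (n * N1))))]
      · simp [mul_sub]
      · intro a _
        rw [sum_range_one, pow_zero, mul_one, fourier_torsion hy1]
        unfold fc
        rw [hc]
    have hpt : ∀ r : ℕ, 1 ≤ r → ‖1 - c (N * (n * N1))‖ ^ 2 * ν.real {y} ≤ C * (r : ℝ) ^ (-ε) := by
      intro r hr
      have hrp : (0 : ℝ) < r := by exact_mod_cast hr
      have h1 := hC r 1 hr le_rfl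
      have h3 : ∫ x in {y}, ‖cs 2 3 ν (n * N1) r 1 x‖ ^ 2 ∂ν ≤
          ∫ x, ‖cs 2 3 ν (n * N1) r 1 x‖ ^ 2 ∂ν :=
        setIntegral_le_integral (cs_integrable 2 3 ν _ r 1)
          (Eventually.of_forall fun x => by positivity)
      rw [integral_singleton, hcs, smul_eq_mul, norm_mul, Complex.norm_natCast] at h3
      have h4 : ν.real {y} * ((r : ℝ) * ‖1 - c (N * (n * N1))‖) ^ 2 ≤ C * (r : ℝ) ^ (2 - ε) := by
        refine h3.trans (h1.trans (le_of_eq ?_))
        simp
      have h5 : (r : ℝ) ^ (2 - ε) = (r : ℝ) ^ 2 * (r : ℝ) ^ (-ε) := by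
        rw [sub_eq_add_neg, Real.rpow_add hrp, Real.rpow_two]
      rw [h5] at h4
      have h6 : 0 < (r : ℝ) ^ 2 := by positivity
      nlinarith [h4, h6]
    have hlim : Tendsto (fun r : ℕ => C * (r : ℝ) ^ (-ε)) atTop (𝓝 (C * 0)) :=
      ((tendsto_rpow_neg_atTop hε).comp tendsto_natCast_atTop_atTop).const_mul C
    have hle : ‖1 - c (N * (n * N1))‖ ^ 2 * ν.real {y} ≤ C * 0 :=
      ge_of_tendsto hlim (by filter_upwards [eventually_ge_atTop 1] with r hr using hpt r hr)
    have hypos : 0 < ν.real {y} := ENNReal.toReal_pos hy (measure_ne_top _ _)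
    have h7 : ‖1 - c (N * (n * N1))‖ ^ 2 = 0 := by
      have := sq_nonneg ‖1 - c (N * (n * N1))‖
      nlinarith
    have h8 : 1 - c (N * (n * N1)) = 0 := by
      rw [← norm_eq_zero]
      exact pow_eq_zero_iff (two_ne_zero) |>.1 h7
    have h9 : ((N * N1 : ℕ) : ℤ) * n = N * (n * N1) := by push_cast; ring
    rw [h9]
    exact (sub_eq_zero.1 h8).symm

/-- a finite linear relation forces finitely many atoms -/
theorem of_relation {c : ℤ → ℂ} {μ : Measure T} [IsProbabilityMeasure μ]
    (hμ : ∀ n, ∫ x, fourier n x ∂μ = c n) (h2 : ∀ n, c (2 * n) = c n) (P : Polynomial ℂ)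
    (hP : P ≠ 0) (hrel : ∀ n : ℤ, ∑ k ∈ P.support, P.coeff k * c (k + n) = 0) :
    ∃ M : ℕ, 1 ≤ M ∧ ∀ n : ℤ, c (M * n) = 1 := by
  classical
  have hm2 : MeasurePreserving (fun x : T => 2 • x) μ μ := by
    refine mp_nsmul (c := c) hμ (fun n => ?_)
    rw [← h2 n]
    congr 1
    push_cast; ring
  set F : T → ℂ := fun x => P.eval (fourier 1 x) with hF
  have hFe : ∀ x, F x = ∑ k ∈ P.support, P.coeff k * fourier (k : ℤ) x := by
    intro x
    rw [hF]
    simp only
    rw [Polynomial.eval_eq_sum, Polynomial.sum]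
    refine sum_congr rfl fun k _ => ?_
    congr 1
    rw [fourier_coe_pow]
  have hFc : Continuous F := by
    rw [hF]
    exact P.continuous.comp (fourier 1).continuous
  have hz : ∀ n : ℤ, ∫ x, F x * fourier n x ∂μ = 0 := by
    intro n
    rw [← hrel n]
    simp_rw [hFe, sum_mul]
    rw [integral_finsetSum]
    · refine sum_congr rfl fun k _ => ?_
      rw [← hμ, ← integral_const_mul]
      refine integral_congr_ae (Eventually.of_forall fun x => ?_)
      simp only
      rw [mul_assoc, ← fourier_add]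
    · intro k _
      exact integrable_cont μ ⟨_, (continuous_const.mul (fourier (k : ℤ)).continuous).mul
        (fourier n).continuous⟩
  have hsq : ∫ x, F x * (starRingEnd ℂ) (F x) ∂μ = 0 := by
    have h1 : ∀ x, F x * (starRingEnd ℂ) (F x) =
        ∑ k ∈ P.support, (starRingEnd ℂ) (P.coeff k) * (F x * fourier (-(k : ℤ)) x) := by
      intro x
      conv_lhs => rw [hFe x, map_sum, ← hFe x, mul_sum]
      refine sum_congr rfl fun k _ => ?_
      rw [map_mul, ← fourier_neg]
      ring
    simp_rw [h1]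
    rw [integral_finsetSum]
    · refine sum_eq_zero fun k _ => ?_
      rw [integral_const_mul, hz, mul_zero]
    · intro k _
      exact integrable_cont μ ⟨_, continuous_const.mul (hFc.mul (fourier (-(k : ℤ))).continuous)⟩
  have hae : ∀ᵐ x ∂μ, F x = 0 := by
    have h1 : ∀ x, F x * (starRingEnd ℂ) (F x) = ((‖F x‖ ^ 2 : ℝ) : ℂ) := by
      intro x
      rw [Complex.mul_conj, Complex.normSq_eq_norm_sq]
    simp_rw [h1] at hsq
    rw [integral_complex_ofReal] at hsq
    have h3 : ∫ x, ‖F x‖ ^ 2 ∂μ = 0 := by exact_mod_cast hsq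
    rw [integral_eq_zero_iff_of_nonneg (fun x => by positivity)] at h3
    · filter_upwards [h3] with x hx
      have : ‖F x‖ ^ 2 = 0 := hx
      exact norm_eq_zero.1 (pow_eq_zero_iff two_ne_zero |>.1 this)
    · exact Pool.Agent.H847R3.XpXq.integrable_of_cont (hFc.norm.pow 2) μ
  -- the zero set is finite
  have hfin : Set.Finite {x : T | F x = 0} := by
    have h1 : Set.Finite {z : ℂ | P.eval z = 0} := by
      refine (P.roots.toFinset.finite_toSet).subset fun z hz => ?_
      simp only [Finset.mem_coe, Multiset.mem_toFinset]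
      exact (Polynomial.mem_roots hP).2 hz
    refine Set.Finite.preimage (f := fun x : T => (fourier 1 x : ℂ)) ?_ h1
    intro x _ y _ hxy
    have : (AddCircle.toCircle x : ℂ) = AddCircle.toCircle y := by
      simpa [fourier_one] using hxy
    exact AddCircle.injective_toCircle one_ne_zero (Circle.ext this)
  set Z : Finset T := hfin.toFinset.filter (fun x => μ {x} ≠ 0) with hZ
  have hae2 : ∀ᵐ x ∂μ, x ∈ Z := by
    have h1 : ∀ x ∈ hfin.toFinset, μ {x} = 0 → ∀ᵐ y ∂μ, y ≠ x := by
      intro x _ hx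
      rw [ae_iff]
      simpa using hx
    have h3 : ∀ᵐ y ∂μ, ∀ x ∈ hfin.toFinset, μ {x} = 0 → y ≠ x := by
      rw [Filter.eventually_all_finset]
      intro x hx
      by_cases hx0 : μ {x} = 0
      · filter_upwards [h1 x hx hx0] with y hy _ using hy
      · exact Eventually.of_forall fun y h => absurd h hx0
    filter_upwards [hae, h3] with y hy hy3
    rw [hZ, mem_filter]
    have hy4 : y ∈ hfin.toFinset := by simpa using hy
    exact ⟨hy4, fun h => hy3 y hy4 h rfl⟩
  have htor : ∀ x ∈ Z, ∃ N : ℕ, 1 ≤ N ∧ N • x = 0 := by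
    intro x hx
    rw [hZ, mem_filter] at hx
    exact torsion hm2 hx.2
  choose! Nf hNf using htor
  refine ⟨∏ x ∈ Z, Nf x, Nat.one_le_iff_ne_zero.2 ?_, fun n => ?_⟩
  · rw [prod_ne_zero_iff]
    intro x hx
    have := (hNf x hx).1
    omega
  · rw [← hμ]
    have h1 : ∀ᵐ x ∂μ, fourier (((∏ x ∈ Z, Nf x : ℕ) : ℤ) * n) x = (1 : ℂ) := by
      filter_upwards [hae2] with x hx
      have h3 := fourier_torsion (hNf x hx).2 (n * ((∏ y ∈ Z.erase x, Nf y : ℕ) : ℤ)) 1
      rw [one_smul] at h3
      rw [← h3]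
      congr 1
      rw [← mul_prod_erase Z Nf hx]
      push_cast; ring
    rw [integral_congr_ae h1]
    simp

end Pool.Agent.W763.Tr
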