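import Pool.Agent.W763.Tr.Pd
import Pool.Agent.W763.Tr.Meas

/-!
Traces of the group generated by `x ↦ 2 x`, `x ↦ 3 x`, `x ↦ x + 1` on `ℚ`.
-/

set_option autoImplicit false

open MeasureTheory Filter Topology Finset
open scoped ENNReal NNReal ComplexOrder

namespace Pool.Agent.W763.Tr

open Pool.Agent.W764.FB

/-- elements of `ℤ[1/6]` -/
def Six (r : ℚ) : Prop := ∃ (n : ℤ) (k : ℕ), r = n / 6 ^ k

lemma Six.add {r s : ℚ} (hr : Six r) (hs : Six s) : Six (r + s) := by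
  obtain ⟨n, k, rfl⟩ := hr
  obtain ⟨m, l, rfl⟩ := hs
  refine ⟨n * 6 ^ l + m * 6 ^ k, k + l, ?_⟩
  push_cast
  rw [pow_add]
  field_simp

lemma Six.neg {r : ℚ} (hr : Six r) : Six (-r) := by
  obtain ⟨n, k, rfl⟩ := hr
  refine ⟨-n, k, ?_⟩
  push_cast; ring

lemma Six.mul {r s : ℚ} (hr : Six r) (hs : Six s) : Six (r * s) := by
  obtain ⟨n, k, rfl⟩ := hr
  obtain ⟨m, l, rfl⟩ := hs
  refine ⟨n * m, k + l, ?_⟩
  push_cast
  rw [pow_add]
  field_simp

lemma Six.pow {r : ℚ} (hr : Six r) (e : ℕ) : Six (r ^ e) := by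
  induction e with
  | zero => exact ⟨1, 0, by simp⟩
  | succ e ih => rw [pow_succ]; exact ih.mul hr

lemma Six.zpow {r : ℚ} (hr : Six r) (hr' : Six r⁻¹) (e : ℤ) : Six (r ^ e) := by
  obtain ⟨m, rfl | rfl⟩ := e.eq_nat_or_neg
  · rw [zpow_natCast]; exact hr.pow m
  · rw [zpow_neg, zpow_natCast, ← inv_pow]; exact hr'.pow m

lemma six_two (e : ℤ) : Six ((2 : ℚ) ^ e) :=
  Six.zpow ⟨2, 0, by norm_num⟩ ⟨3, 1, by norm_num⟩ e

lemma six_three (e : ℤ) : Six ((3 : ℚ) ^ e) :=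
  Six.zpow ⟨3, 0, by norm_num⟩ ⟨2, 1, by norm_num⟩ e

/-- the affine form of the elements -/
lemma form {s2 s3 t : Equiv.Perm ℚ} (h2 : ∀ x, s2 x = 2 * x) (h3 : ∀ x, s3 x = 3 * x)
    (ht : ∀ x, t x = x + 1) (g : Equiv.Perm ℚ) (hg : g ∈ Subgroup.closure {s2, s3, t}) :
    ∃ (a b : ℤ) (r : ℚ), Six r ∧ ∀ x, g x = 2 ^ a * 3 ^ b * x + r := by
  induction hg using Subgroup.closure_induction with
  | mem x hx =>
    rcases hx with rfl | rfl | rfl
    · exact ⟨1, 0, 0, ⟨0, 0, by simp⟩, fun x => by rw [h2]; simp⟩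
    · exact ⟨0, 1, 0, ⟨0, 0, by simp⟩, fun x => by rw [h3]; simp⟩
    · exact ⟨0, 0, 1, ⟨1, 0, by simp⟩, fun x => by rw [ht]; simp⟩
  | one => exact ⟨0, 0, 0, ⟨0, 0, by simp⟩, fun x => by simp⟩
  | mul x y _ _ hx hy =>
    obtain ⟨a, b, r, hr, hx⟩ := hx
    obtain ⟨a', b', r', hr', hy⟩ := hy
    refine ⟨a + a', b + b', 2 ^ a * 3 ^ b * r' + r, (((six_two a).mul (six_three b)).mul hr').add hr,
      fun z => ?_⟩
    rw [Equiv.Perm.mul_apply, hx, hy, zpow_add₀ (by norm_num), zpow_add₀ (by norm_num)]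
    ring
  | inv x _ hx =>
    obtain ⟨a, b, r, hr, hx⟩ := hx
    refine ⟨-a, -b, -(2 ^ (-a) * 3 ^ (-b) * r), (((six_two _).mul (six_three _)).mul hr).neg,
      fun z => ?_⟩
    rw [Equiv.Perm.inv_eq_iff_eq, hx, zpow_neg, zpow_neg]
    have h1 : (2 : ℚ) ^ a ≠ 0 := zpow_ne_zero _ (by norm_num)
    have h3 : (3 : ℚ) ^ b ≠ 0 := zpow_ne_zero _ (by norm_num)
    field_simp
    ring

section

variable {G : Subgroup (Equiv.Perm ℚ)} {τ : ℤ → G}
  (hτ : ∀ (k : ℤ) (x : ℚ), (τ k : Equiv.Perm ℚ) x = x + k)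
  {φ : G → ℂ} (h1 : φ 1 = 1) (hcl : ∀ g h : G, φ (h * g * h⁻¹) = φ g) (hpd : PD φ)

include hτ in
lemma tau_add (k l : ℤ) : τ k * τ l = τ (k + l) := by
  apply Subtype.ext
  apply Equiv.ext
  intro x
  rw [Subgroup.coe_mul, Equiv.Perm.mul_apply, hτ, hτ, hτ]
  push_cast; ring

include hτ in
lemma tau_zero : τ 0 = 1 := by
  apply Subtype.ext
  apply Equiv.ext
  intro x
  rw [hτ]; simp

include hτ in
lemma tau_inv (k : ℤ) : (τ k)⁻¹ = τ (-k) := by
  rw [inv_eq_iff_mul_eq_one, tau_add hτ, add_neg_cancel, tau_zero hτ]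

include hτ in
lemma tau_conj (S : G) (lam : ℤ) (hS : ∀ x, (S : Equiv.Perm ℚ) x = lam * x) (k : ℤ) :
    S * τ k * S⁻¹ = τ (lam * k) := by
  rw [mul_inv_eq_iff_eq_mul]
  apply Subtype.ext
  apply Equiv.ext
  intro x
  rw [Subgroup.coe_mul, Subgroup.coe_mul, Equiv.Perm.mul_apply, Equiv.Perm.mul_apply, hτ, hτ, hS, hS]
  push_cast; ring

include hτ hpd in
lemma pdZ (N : ℕ) (a : ℕ → ℂ) :
    0 ≤ ∑ j ∈ range N, ∑ k ∈ range N, star (a k) * a j * φ (τ ((j : ℤ) - k)) := by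
  refine le_of_le_of_eq (hpd.family (range N) (fun j => τ j) a) ?_
  refine sum_congr rfl fun j _ => sum_congr rfl fun k _ => ?_
  rw [tau_inv hτ, tau_add hτ]
  congr 3; ring

lemma pow_six (S6 : G) (hS : ∀ x, (S6 : Equiv.Perm ℚ) x = 6 * x) (k : ℕ) (x : ℚ) :
    ((S6 ^ k : G) : Equiv.Perm ℚ) x = 6 ^ k * x := by
  rw [Subgroup.coe_pow]
  induction k generalizing x with
  | zero => simp
  | succ k ih =>
    rw [pow_succ, Equiv.Perm.mul_apply, ih, hS, pow_succ]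
    ring

include hτ hcl in
/-- translations -/
lemma phi_trans (S6 : G) (hS : ∀ x, (S6 : Equiv.Perm ℚ) x = 6 * x) (g : G) (n : ℤ) (k : ℕ)
    (hg : ∀ x, (g : Equiv.Perm ℚ) x = x + n / 6 ^ k) : φ g = φ (τ n) := by
  have h2 : S6 ^ k * g * (S6 ^ k)⁻¹ = τ n := by
    rw [mul_inv_eq_iff_eq_mul]
    apply Subtype.ext
    apply Equiv.ext
    intro x
    rw [Subgroup.coe_mul, Subgroup.coe_mul, Equiv.Perm.mul_apply, Equiv.Perm.mul_apply, hτ,
      pow_six S6 hS, pow_six S6 hS, hg]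
    field_simp
  rw [← h2, hcl]

include hτ h1 hpd in
/-- from multiples of `N` to all integers -/
lemma all_zero (h2 : ∀ n : ℤ, φ (τ (2 * n)) = φ (τ n)) {N : ℕ} (hN : 1 ≤ N)
    (hz : ∀ m : ℤ, m ≠ 0 → φ (τ (N * m)) = 0) (n : ℤ) (hn : n ≠ 0) : φ (τ n) = 0 := by
  have : NeZero N := ⟨by omega⟩
  have hpow : ∀ e : ℕ, φ (τ (2 ^ e * n)) = φ (τ n) := by
    intro e
    induction e with
    | zero => simp
    | succ e ih => rw [pow_succ', mul_assoc, h2, ih]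
  obtain ⟨y, hy⟩ := Finite.exists_infinite_fiber (fun e : ℕ => (2 : ZMod N) ^ e)
  let emb := Infinite.natEmbedding ((fun e : ℕ => (2 : ZMod N) ^ e) ⁻¹' {y})
  refine hpd.bessel h1 (fun i => τ (2 ^ (emb i : ℕ) * n)) ?_ _ (fun i => hpow _)
  intro i j hij
  have hne : (emb i : ℕ) ≠ emb j := fun h => hij (emb.injective (Subtype.ext h))
  have hcong : (2 : ZMod N) ^ (emb i : ℕ) = 2 ^ (emb j : ℕ) := by
    have e1 : (2 : ZMod N) ^ (emb i : ℕ) = y := (emb i).2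
    have e2 : (2 : ZMod N) ^ (emb j : ℕ) = y := (emb j).2
    rw [e1, e2]
  have hdvd : (N : ℤ) ∣ 2 ^ (emb i : ℕ) - 2 ^ (emb j : ℕ) := by
    rw [← ZMod.intCast_zmod_eq_zero_iff_dvd]
    push_cast
    rw [hcong, sub_self]
  obtain ⟨w, hw⟩ := hdvd
  have e3 : (τ (2 ^ (emb j : ℕ) * n))⁻¹ * τ (2 ^ (emb i : ℕ) * n) = τ (N * (w * n)) := by
    rw [tau_inv hτ, tau_add hτ]
    congr 1
    rw [← mul_assoc, ← hw]; ring
  rw [e3]
  refine hz _ (mul_ne_zero ?_ hn)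
  intro hw0
  rw [hw0, mul_zero, sub_eq_zero] at hw
  exact hne (Int.pow_right_injective (by norm_num) hw)

include hτ h1 hcl hpd in
/-- vanishing on the translations forces the regular trace -/
lemma eq_regular (S6 : G) (hS : ∀ x, (S6 : Equiv.Perm ℚ) x = 6 * x)
    (hform : ∀ g : G, ∃ (a b : ℤ) (r : ℚ), Six r ∧ ∀ x, (g : Equiv.Perm ℚ) x = 2 ^ a * 3 ^ b * x + r)
    (hz : ∀ n : ℤ, n ≠ 0 → φ (τ n) = 0) (g : G) (hg : g ≠ 1) : φ g = 0 := by
  obtain ⟨a, b, r, ⟨n, k, hr⟩, hx⟩ := hform g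
  set lam : ℚ := 2 ^ a * 3 ^ b with hlam
  by_cases h : lam = 1
  · have hx' : ∀ x, (g : Equiv.Perm ℚ) x = x + n / 6 ^ k := by
      intro x; rw [hx, h, one_mul, hr]
    rw [phi_trans hτ hcl S6 hS g n k hx']
    refine hz n ?_
    intro hn
    apply hg
    apply Subtype.ext
    apply Equiv.ext
    intro x
    rw [hx', hn]; simp
  · have hd : (1 - lam).num ≠ 0 := by
      rw [Rat.num_ne_zero, sub_ne_zero]
      exact fun e => h e.symm
    have hnum : (1 - lam) * (1 - lam).den = (1 - lam).num := Rat.mul_den_eq_num _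
    set v : ℤ := ((1 - lam).den : ℤ) with hv
    set D : ℤ := (1 - lam).num with hD
    have hnum' : (1 - lam) * (v : ℚ) = D := by
      rw [hv]; push_cast; exact hnum
    have hconj : ∀ i : ℤ, φ (τ (D * i) * g) = φ g := by
      intro i
      have e : τ (v * i) * g * (τ (v * i))⁻¹ = τ (D * i) * g := by
        rw [mul_inv_eq_iff_eq_mul]
        apply Subtype.ext
        apply Equiv.ext
        intro x
        simp only [Subgroup.coe_mul, Equiv.Perm.mul_apply, hτ, hx]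
        push_cast
        rw [← hnum']; ring
      rw [← e, hcl]
    refine hpd.bessel h1 (fun i : ℕ => τ (D * i) * g) ?_ _ (fun i => hconj i)
    intro i j hij
    have e : (τ (D * (j : ℤ)) * g)⁻¹ * (τ (D * (i : ℤ)) * g) =
        g⁻¹ * τ (D * ((i : ℤ) - j)) * (g⁻¹)⁻¹ := by
      rw [mul_inv_rev, tau_inv hτ, inv_inv]
      have : τ (D * ((i : ℤ) - j)) = τ (-(D * (j : ℤ))) * τ (D * (i : ℤ)) := by
        rw [tau_add hτ]; congr 1; ring
      rw [this]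
      simp only [mul_assoc]
    rw [e, hcl]
    refine hz _ (mul_ne_zero hd ?_)
    rw [sub_ne_zero]
    exact_mod_cast hij

include hτ h1 hcl hpd in
/-- the kernel case -/
lemma finite_dim (S6 : G) (hS : ∀ x, (S6 : Equiv.Perm ℚ) x = 6 * x)
    (hform : ∀ g : G, ∃ (a b : ℤ) (r : ℚ), Six r ∧ ∀ x, (g : Equiv.Perm ℚ) x = 2 ^ a * 3 ^ b * x + r)
    (h2 : ∀ n : ℤ, φ (τ (2 * n)) = φ (τ n)) (h3 : ∀ n : ℤ, φ (τ (3 * n)) = φ (τ n))
    (hM : ∃ M : ℕ, 1 ≤ M ∧ ∀ n : ℤ, φ (τ (M * n)) = 1) :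
    FiniteDimensional ℂ (Submodule.span ℂ {F : G → ℂ | ∃ n : G,
        (∃ r : ℚ, ∀ x : ℚ, (n : Equiv.Perm ℚ) x = x + r) ∧ F = fun x => φ (n * x)}) := by
  classical
  -- the least such `M` is coprime to 6
  set M := Nat.find hM with hMdef
  obtain ⟨hM1, hMc⟩ := Nat.find_spec hM
  rw [← hMdef] at hM1 hMc
  have hmin : ∀ m, m < M → ¬ (1 ≤ m ∧ ∀ n : ℤ, φ (τ (m * n)) = 1) := fun m hm => Nat.find_min hM hm
  have hc2 : ¬ 2 ∣ M := by
    rintro ⟨m, hm⟩
    refine hmin m (by omega) ⟨by omega, fun n => ?_⟩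
    rw [← h2, ← hMc n, hm]
    congr 2; push_cast; ring
  have hc3 : ¬ 3 ∣ M := by
    rintro ⟨m, hm⟩
    refine hmin m (by omega) ⟨by omega, fun n => ?_⟩
    rw [← h3, ← hMc n, hm]
    congr 2; push_cast; ring
  have hcop : Nat.Coprime 6 M := by
    have a1 : Nat.Coprime 2 M := (Nat.Prime.coprime_iff_not_dvd Nat.prime_two).2 hc2
    have a2 : Nat.Coprime 3 M := (Nat.Prime.coprime_iff_not_dvd Nat.prime_three).2 hc3
    exact Nat.Coprime.mul_left a1 a2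
  refine FiniteDimensional.span_of_finite ℂ (Set.Finite.subset
    ((Set.finite_lt_nat M).image (fun (i : ℕ) (x : G) => φ (τ i * x))) ?_)
  rintro F ⟨g, ⟨r, hr⟩, rfl⟩
  obtain ⟨a, b, r', ⟨n, k, hr'⟩, hx⟩ := hform g
  have hrr : r = n / 6 ^ k := by
    have e0 := hx 0
    rw [hr 0] at e0
    simp only [mul_zero, zero_add] at e0
    rw [e0, hr']
  have hcopk : IsCoprime ((6 : ℤ) ^ k) (M : ℤ) := by
    have : IsCoprime (6 : ℤ) (M : ℤ) := by
      have := Nat.isCoprime_iff_coprime.2 hcop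
      simpa using this
    exact this.pow_left
  obtain ⟨u, v, huv⟩ := hcopk
  have hMpos : (0 : ℤ) < M := by exact_mod_cast hM1
  set i : ℕ := ((n * u) % M).toNat with hi
  have hi0 : ((i : ℤ)) = (n * u) % M := Int.toNat_of_nonneg (Int.emod_nonneg _ hMpos.ne')
  have hilt : i < M := by
    have := Int.emod_lt_of_pos (n * u) hMpos
    omega
  refine ⟨i, hilt, ?_⟩
  -- the difference is in the kernel
  have hdvd : (M : ℤ) ∣ n - i * 6 ^ k := by
    have e1 : (n * u) % M = n * u - M * ((n * u) / M) := by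
      have := Int.emod_add_mul_ediv (n * u) M
      linarith
    rw [hi0, e1]
    refine ⟨n * v + ((n * u) / M) * 6 ^ k, ?_⟩
    have : n = n * (u * 6 ^ k + v * M) := by rw [huv, mul_one]
    nth_rewrite 1 [this]
    ring
  obtain ⟨w, hw⟩ := hdvd
  have hker : φ (g * (τ i)⁻¹) = 1 := by
    rw [phi_trans hτ hcl S6 hS (g * (τ i)⁻¹) (n - i * 6 ^ k) k, hw, hMc]
    intro x
    rw [tau_inv hτ, Subgroup.coe_mul, Equiv.Perm.mul_apply, hτ, hr, hrr]
    push_cast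
    field_simp
    ring
  funext x
  have e1 : g * x = (g * (τ i)⁻¹) * (τ i * x) := by group
  have e2 : (g * (τ i)⁻¹) * (τ i * x) = (τ i * x)⁻¹ * ((τ i * x) * (g * (τ i)⁻¹)) * ((τ i * x)⁻¹)⁻¹ := by
    group
  simp only
  rw [e1, e2, hcl, hpd.mul_of_eq_one h1 hker]

include hτ in
/-- finite dimension gives a kernel -/
lemma exists_kernel {μ : Measure T} [IsProbabilityMeasure μ]
    (hμ : ∀ n, ∫ x, fourier n x ∂μ = φ (τ n)) (h2 : ∀ n : ℤ, φ (τ (2 * n)) = φ (τ n))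
    (hfd : FiniteDimensional ℂ (Submodule.span ℂ {F : G → ℂ | ∃ n : G,
        (∃ r : ℚ, ∀ x : ℚ, (n : Equiv.Perm ℚ) x = x + r) ∧ F = fun x => φ (n * x)})) :
    ∃ M : ℕ, 1 ≤ M ∧ ∀ n : ℤ, φ (τ (M * n)) = 1 := by
  classical
  set V := Submodule.span ℂ {F : G → ℂ | ∃ n : G,
        (∃ r : ℚ, ∀ x : ℚ, (n : Equiv.Perm ℚ) x = x + r) ∧ F = fun x => φ (n * x)} with hV
  let v : ℕ → V := fun k => ⟨fun x => φ (τ k * x), Submodule.subset_span
    ⟨τ k, ⟨(k : ℚ), fun x => by rw [hτ]; simp⟩, rfl⟩⟩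
  have hnot : ¬ LinearIndependent ℂ v := by
    intro h
    have := h.finite
    exact not_finite ℕ
  rw [not_linearIndependent_iff] at hnot
  obtain ⟨s, g, hsum, i, hi, hgi⟩ := hnot
  set P : Polynomial ℂ := ∑ k ∈ s, Polynomial.monomial k (g k) with hP
  have hcoeff : ∀ k, P.coeff k = if k ∈ s then g k else 0 := by
    intro k
    rw [hP, Polynomial.finsetSum_coeff]
    simp only [Polynomial.coeff_monomial]
    rw [Finset.sum_ite_eq' s k g]
  refine of_relation (c := fun n => φ (τ n)) hμ h2 P ?_ ?_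
  · intro h0
    apply hgi
    have := hcoeff i
    rw [h0, if_pos hi] at this
    simpa using this.symm
  · intro n
    have hsub : P.support ⊆ s := by
      intro k hk
      rw [Polynomial.mem_support_iff, hcoeff] at hk
      by_contra h
      exact hk (if_neg h)
    rw [sum_subset hsub (fun k _ hk => by
      rw [Polynomial.notMem_support_iff.1 hk, zero_mul])]
    have h4 := congrArg (fun w : V => (w : G → ℂ) (τ n)) hsum
    simp only [Submodule.coe_sum, Submodule.coe_smul, Submodule.coe_zero, Finset.sum_apply,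
      Pi.smul_apply, smul_eq_mul, Pi.zero_apply] at h4
    rw [← h4]
    refine sum_congr rfl fun k hk => ?_
    rw [hcoeff, if_pos hk]
    congr 1
    change φ (τ (k + n)) = φ (τ k * τ n)
    rw [tau_add hτ]

end

end Pool.Agent.W763.Tr
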