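import Pool.Agent.W764.FB.Comp

/-!
Herglotz' theorem: a positive definite function on `ℤ` is the sequence of Fourier coefficients of a
probability measure on the circle.
-/

set_option autoImplicit false

open MeasureTheory Filter Topology Finset
open scoped ENNReal NNReal ComplexOrder

namespace Pool.Agent.W763.Tr

open Pool.Agent.W764.FB

/-- the Fejer density -/
noncomputable def dens (c : ℤ → ℂ) (N : ℕ) (x : T) : ℂ :=
  ∑ j ∈ range N, ∑ k ∈ range N, c ((j : ℤ) - k) * fourier ((k : ℤ) - j) x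

lemma dens_nonneg {c : ℤ → ℂ}
    (hc : ∀ N : ℕ, ∀ a : ℕ → ℂ, 0 ≤ ∑ j ∈ range N, ∑ k ∈ range N, star (a k) * a j * c (j - k))
    (N : ℕ) (x : T) : 0 ≤ dens c N x := by
  refine le_of_le_of_eq (hc N (fun j => fourier (-(j : ℤ)) x)) ?_
  unfold dens
  refine sum_congr rfl fun j _ => sum_congr rfl fun k _ => ?_
  have h1 : star (fourier (-(k : ℤ)) x : ℂ) = fourier (k : ℤ) x := by
    have := fourier_neg (T := (1 : ℝ)) (n := -(k : ℤ)) (x := x)
    rw [neg_neg] at this
    rw [this]; rfl
  rw [h1, ← fourier_add, ← sub_eq_add_neg, mul_comm]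

lemma continuous_dens (c : ℤ → ℂ) (N : ℕ) : Continuous (dens c N) := by
  unfold dens
  exact continuous_finsetSum _ fun j _ => continuous_finsetSum _ fun k _ =>
    continuous_const.mul (fourier _).continuous

/-- the number of pairs with a given difference -/
noncomputable def cnt (N : ℕ) (n : ℤ) : ℂ :=
  ∑ j ∈ range N, ∑ k ∈ range N, if (j : ℤ) - k = n then 1 else 0

lemma integral_fourier' (n : ℤ) :
    ∫ x, fourier n x ∂(volume : Measure T) = if n = 0 then 1 else 0 := by
  split_ifs with h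
  · subst h; simp
  · exact fc_vol h

lemma integral_dens (c : ℤ → ℂ) (N : ℕ) (n : ℤ) :
    ∫ x, dens c N x * fourier n x ∂(volume : Measure T) = c n * cnt N n := by
  have h1 : ∀ x : T, dens c N x * fourier n x =
      ∑ j ∈ range N, ∑ k ∈ range N, c ((j : ℤ) - k) * fourier ((k : ℤ) - j + n) x := by
    intro x
    unfold dens
    rw [sum_mul]
    refine sum_congr rfl fun j _ => ?_
    rw [sum_mul]
    refine sum_congr rfl fun k _ => ?_
    rw [mul_assoc, ← fourier_add]
  simp_rw [h1]
  have hi : ∀ m : ℤ, ∀ z : ℂ, Integrable (fun x : T => z * fourier m x) volume := fun m z =>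
    (integrable_cont volume (fourier m)).const_mul z
  rw [integral_finsetSum _ fun j _ => integrable_finsetSum _ fun k _ => hi _ _]
  unfold cnt
  rw [mul_sum]
  refine sum_congr rfl fun j _ => ?_
  rw [integral_finsetSum _ fun k _ => hi _ _, mul_sum]
  refine sum_congr rfl fun k _ => ?_
  rw [integral_const_mul, integral_fourier']
  by_cases h : (j : ℤ) - k = n
  · have h' : (k : ℤ) - j + n = 0 := by omega
    simp [h, h']
  · have h' : ¬ ((k : ℤ) - j + n = 0) := by omega
    simp [h, h']

lemma cnt_eq (N : ℕ) (n : ℤ) (hn : n.natAbs ≤ N) : cnt N n = ((N : ℂ) - n.natAbs) := by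
  unfold cnt
  have h1 : ∀ j ∈ range N, (∑ k ∈ range N, if (j : ℤ) - k = n then (1 : ℂ) else 0) =
      if (n ≤ j ∧ (j : ℤ) < N + n) then 1 else 0 := by
    intro j hj
    by_cases h : n ≤ j ∧ (j : ℤ) < N + n
    · rw [if_pos h]
      have hk : (((j : ℤ) - n).toNat) ∈ range N := by
        rw [mem_range]; omega
      rw [sum_eq_single_of_mem _ hk]
      · rw [if_pos]; omega
      · intro k _ hne
        rw [if_neg]; omega
    · rw [if_neg h]
      refine sum_eq_zero fun k hk => ?_
      rw [mem_range] at hk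
      rw [if_neg]; omega
  rw [sum_congr rfl h1, ← sum_filter, sum_const, nsmul_eq_mul, mul_one]
  have h2 : #((range N).filter fun j : ℕ => n ≤ (j : ℤ) ∧ (j : ℤ) < N + n) = N - n.natAbs := by
    have h3 : ((range N).filter fun j : ℕ => n ≤ (j : ℤ) ∧ (j : ℤ) < N + n) =
        Finset.Ico n.toNat (N - (-n).toNat) := by
      ext j
      simp only [mem_filter, mem_range, mem_Ico]
      omega
    rw [h3, Nat.card_Ico]; omega
  rw [h2, Nat.cast_sub hn]

/-- the approximating probability measures -/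
lemma exists_approx {c : ℤ → ℂ} (h0 : c 0 = 1)
    (hc : ∀ N : ℕ, ∀ a : ℕ → ℂ, 0 ≤ ∑ j ∈ range N, ∑ k ∈ range N, star (a k) * a j * c (j - k))
    (N : ℕ) (hN : 1 ≤ N) :
    ∃ P : ProbabilityMeasure T, ∀ n : ℤ,
      ∫ x, fourier n x ∂(P : Measure T) = (N : ℂ)⁻¹ * (c n * cnt N n) := by
  have hN0 : (N : ℂ) ≠ 0 := by exact_mod_cast (by omega : N ≠ 0)
  set d : T → ℝ≥0∞ := fun x => ENNReal.ofReal (((N : ℂ)⁻¹ * dens c N x).re) with hd
  have hdm : Measurable d :=
    ((Complex.continuous_re.comp (continuous_const.mul (continuous_dens c N))).measurable).ennreal_ofReal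
  have hre : ∀ x, (((d x).toReal : ℝ) : ℂ) = (N : ℂ)⁻¹ * dens c N x := by
    intro x
    have h1 : 0 ≤ (N : ℂ)⁻¹ * dens c N x := by
      refine mul_nonneg ?_ (dens_nonneg hc N x)
      have : (N : ℂ)⁻¹ = (((N : ℝ)⁻¹ : ℝ) : ℂ) := by push_cast; rfl
      rw [this, Complex.zero_le_real]
      positivity
    have h2 : 0 ≤ ((N : ℂ)⁻¹ * dens c N x).re := (Complex.nonneg_iff.1 h1).1
    have h3 : 0 = ((N : ℂ)⁻¹ * dens c N x).im := (Complex.nonneg_iff.1 h1).2
    rw [hd]
    simp only
    rw [ENNReal.toReal_ofReal h2]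
    apply Complex.ext
    · simp
    · rw [← h3]; simp
  have hint : ∀ f : T → ℂ, ∫ x, f x ∂((volume : Measure T).withDensity d) =
      ∫ x, (N : ℂ)⁻¹ * dens c N x * f x ∂(volume : Measure T) := by
    intro f
    rw [integral_withDensity_eq_integral_toReal_smul hdm
      (Eventually.of_forall fun x => ENNReal.ofReal_lt_top)]
    refine integral_congr_ae (Eventually.of_forall fun x => ?_)
    simp only
    rw [← hre x]; rfl
  have hfin : IsFiniteMeasure ((volume : Measure T).withDensity d) := by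
    refine isFiniteMeasure_withDensity_ofReal ?_
    refine Integrable.hasFiniteIntegral ?_
    have h1 : Integrable (fun x : T => (N : ℂ)⁻¹ * dens c N x) volume :=
      integrable_cont volume ⟨_, continuous_const.mul (continuous_dens c N)⟩
    exact h1.re
  have hform : ∀ n : ℤ, ∫ x, fourier n x ∂((volume : Measure T).withDensity d) =
      (N : ℂ)⁻¹ * (c n * cnt N n) := by
    intro n
    rw [hint]
    simp_rw [mul_assoc]
    rw [integral_const_mul, integral_dens]
  have hprob : IsProbabilityMeasure ((volume : Measure T).withDensity d) := by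
    have h1 := hform 0
    have h2 : ∫ x, fourier 0 x ∂((volume : Measure T).withDensity d) =
        ((((volume : Measure T).withDensity d).real Set.univ : ℝ) : ℂ) := by
      simp
    rw [h2, h0, cnt_eq N 0 (by simp)] at h1
    simp only [Int.natAbs_zero, Nat.cast_zero, sub_zero, one_mul] at h1
    rw [inv_mul_cancel₀ hN0] at h1
    have h3 : ((volume : Measure T).withDensity d).real Set.univ = 1 := by exact_mod_cast h1
    exact isProbabilityMeasure_iff_real.2 h3
  exact ⟨⟨_, hprob⟩, hform⟩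

/-- **Herglotz' theorem.** -/
theorem herglotz {c : ℤ → ℂ} (h0 : c 0 = 1)
    (hc : ∀ N : ℕ, ∀ a : ℕ → ℂ, 0 ≤ ∑ j ∈ range N, ∑ k ∈ range N, star (a k) * a j * c (j - k)) :
    ∃ μ : Measure T, IsProbabilityMeasure μ ∧ ∀ n : ℤ, ∫ x, fourier n x ∂μ = c n := by
  choose P hP using fun N : ℕ => exists_approx h0 hc (N + 1) (by omega)
  let U : Ultrafilter ℕ := Ultrafilter.of atTop
  have hU : (U : Filter ℕ) ≤ atTop := Ultrafilter.of_le atTop
  obtain ⟨μ, -, hμ⟩ := isCompact_univ.ultrafilter_le_nhds (U.map P) (by simp)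
  have hμ' : Tendsto P U (𝓝 μ) := hμ
  refine ⟨μ, inferInstance, fun n => ?_⟩
  rw [ProbabilityMeasure.tendsto_iff_forall_integral_rclike_tendsto ℂ] at hμ'
  have h1 := hμ' (BoundedContinuousFunction.mkOfCompact (fourier n))
  simp only [BoundedContinuousFunction.mkOfCompact_apply] at h1
  have h2 : Tendsto (fun N : ℕ => ∫ x, fourier n x ∂(P N : Measure T)) U (𝓝 (c n)) := by
    refine Tendsto.mono_left ?_ hU
    have h3 : ∀ᶠ N : ℕ in atTop, c n * (1 - (n.natAbs : ℂ) * ((N : ℂ) + 1)⁻¹) =
        ∫ x, fourier n x ∂(P N : Measure T) := by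
      filter_upwards [eventually_ge_atTop n.natAbs] with N hN
      rw [hP, cnt_eq (N + 1) n (by omega)]
      have : ((N : ℂ) + 1) ≠ 0 := by exact_mod_cast Nat.succ_ne_zero N
      push_cast
      field_simp
    refine Tendsto.congr' h3 ?_
    have h4 : Tendsto (fun N : ℕ => ((N : ℂ) + 1)⁻¹) atTop (𝓝 0) := by
      have := tendsto_one_div_add_atTop_nhds_zero_nat (𝕜 := ℂ)
      simpa [one_div] using this
    have h5 : Tendsto (fun N : ℕ => c n * (1 - (n.natAbs : ℂ) * ((N : ℂ) + 1)⁻¹)) atTop
        (𝓝 (c n * (1 - (n.natAbs : ℂ) * 0))) :=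
      (tendsto_const_nhds.sub (h4.const_mul _)).const_mul _
    simpa using h5
  exact tendsto_nhds_unique h1 h2

end Pool.Agent.W763.Tr
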