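import Mathlib

/-!
Elementary facts on positive definite functions on a group.
-/

set_option autoImplicit false

open Finset
open scoped ComplexOrder

namespace Pool.Agent.W763.Tr

variable {G : Type*} [Group G]

/-- positive definite functions -/
def PD (φ : G → ℂ) : Prop :=
  ∀ (s : Finset G) (c : G → ℂ), 0 ≤ ∑ i ∈ s, ∑ j ∈ s, star (c j) * c i * φ (j⁻¹ * i)

/-- positive definiteness for indexed families -/
lemma PD.family {φ : G → ℂ} (h : PD φ) {ι : Type*} (s : Finset ι) (x : ι → G) (a : ι → ℂ) :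
    0 ≤ ∑ i ∈ s, ∑ j ∈ s, star (a j) * a i * φ ((x j)⁻¹ * x i) := by
  classical
  refine le_of_le_of_eq (h (s.image x) (fun g => ∑ i ∈ s with x i = g, a i)) ?_
  have h1 : ∀ F : G → ℂ, ∑ g ∈ s.image x, (∑ i ∈ s with x i = g, a i) * F g =
      ∑ i ∈ s, a i * F (x i) := by
    intro F
    have := Finset.sum_fiberwise_of_maps_to (s := s) (t := s.image x) (g := x)
      (fun i hi => mem_image_of_mem x hi) (fun i => a i * F (x i))
    rw [← this]
    refine sum_congr rfl fun g _ => ?_
    rw [sum_mul]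
    refine sum_congr rfl fun i hi => ?_
    rw [(mem_filter.1 hi).2]
  have h2 : ∀ F : G → ℂ, ∑ g ∈ s.image x, star (∑ i ∈ s with x i = g, a i) * F g =
      ∑ i ∈ s, star (a i) * F (x i) := by
    intro F
    have := Finset.sum_fiberwise_of_maps_to (s := s) (t := s.image x) (g := x)
      (fun i hi => mem_image_of_mem x hi) (fun i => star (a i) * F (x i))
    rw [← this]
    refine sum_congr rfl fun g _ => ?_
    rw [star_sum, sum_mul]
    refine sum_congr rfl fun i hi => ?_
    rw [(mem_filter.1 hi).2]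
  have h3 : ∀ i : G, ∑ j ∈ s.image x, star (∑ k ∈ s with x k = j, a k) *
      (∑ k ∈ s with x k = i, a k) * φ (j⁻¹ * i) =
      (∑ k ∈ s with x k = i, a k) * ∑ j ∈ s, star (a j) * φ ((x j)⁻¹ * i) := by
    intro i
    have := h2 (fun j => φ (j⁻¹ * i))
    rw [← this, mul_sum]
    refine sum_congr rfl fun j _ => ?_
    ring
  rw [sum_congr rfl fun i _ => h3 i, h1]
  refine sum_congr rfl fun i _ => ?_
  rw [mul_sum]
  refine sum_congr rfl fun j _ => ?_
  ring

lemma PD.inv {φ : G → ℂ} (h : PD φ) (h1 : φ 1 = 1) (g : G) : φ g⁻¹ = star (φ g) := by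
  have key : ∀ w : ℂ, (w * φ g + star w * φ g⁻¹).im = 0 := by
    intro w
    have := h.family (univ : Finset (Fin 2)) ![1, g] ![1, w]
    simp only [Fin.sum_univ_two, Matrix.cons_val_zero, Matrix.cons_val_one, inv_one, one_mul,
      mul_one, star_one, h1, inv_mul_cancel] at this
    have h2 := (Complex.nonneg_iff.1 this).2
    have h3 : (star w * w).im = 0 := by
      simp [Complex.mul_im]; ring
    simp only [Complex.add_im, Complex.one_im] at h2
    simp only [Complex.add_im]
    linarith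
  have k1 := key 1
  have k2 := key Complex.I
  simp at k1 k2
  apply Complex.ext
  · simp; linarith
  · simp; linarith

/-- Bessel's inequality -/
lemma PD.bessel {φ : G → ℂ} (h : PD φ) (h1 : φ 1 = 1) (x : ℕ → G)
    (hx : ∀ i j, i ≠ j → φ ((x j)⁻¹ * x i) = 0) (z : ℂ) (hz : ∀ i, φ (x i) = z) : z = 0 := by
  have key : ∀ n : ℕ, (n : ℝ) * ‖z‖ ^ 2 ≤ 1 := by
    intro n
    have h2 := h.family (univ : Finset (Option (Fin n)))
      (fun o => o.elim 1 (fun i => x i)) (fun o => o.elim 1 (fun _ => - star z))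
    rw [Fintype.sum_option] at h2
    simp only [Fintype.sum_option, Option.elim_none, Option.elim_some, inv_one, one_mul, mul_one,
      star_one, h1, hz, star_neg, star_star] at h2
    have h3 : ∀ i : Fin n, φ (x i)⁻¹ = star z := fun i => by rw [h.inv h1, hz]
    have h4 : ∀ i : Fin n, ∑ j : Fin n, -z * -star z * φ ((x j)⁻¹ * x i) = z * star z := by
      intro i
      rw [Finset.sum_eq_single i]
      · rw [inv_mul_cancel, h1]; ring
      · intro j _ hj
        rw [hx i j (fun h => hj (Fin.ext h.symm))]; ring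
      · simp
    simp only [h3, h4, sum_const, card_univ, Fintype.card_fin, nsmul_eq_mul] at h2
    have h5 : z * star z = ((‖z‖ ^ 2 : ℝ) : ℂ) := by
      rw [Complex.star_def, Complex.mul_conj, Complex.normSq_eq_norm_sq]
    have h6 := (Complex.nonneg_iff.1 h2).1
    have h7 : (1 + (n : ℂ) * (-z * star z) + (n : ℂ) * (-star z * z + z * star z)) =
        ((1 - n * ‖z‖ ^ 2 : ℝ) : ℂ) := by
      have : -star z * z + z * star z = 0 := by ring
      rw [this, neg_mul, h5]; push_cast; ring
    have h8 : (1 + (n : ℂ) * (-z * star z) + (n : ℂ) * (-star z * z + z * star z)).re ≥ 0 := by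
      refine le_of_le_of_eq h6 ?_
      congr 1
    rw [h7, Complex.ofReal_re] at h8
    linarith
  by_contra hne
  have hpos : 0 < ‖z‖ ^ 2 := by positivity
  obtain ⟨n, hn⟩ := exists_nat_gt (1 / ‖z‖ ^ 2)
  rw [div_lt_iff₀ hpos] at hn
  linarith [key n]

/-- the kernel -/
lemma PD.mul_of_eq_one {φ : G → ℂ} (h : PD φ) (h1 : φ 1 = 1) {g : G} (hg : φ g = 1) (y : G) :
    φ (y * g) = φ y := by
  have hg' : φ g⁻¹ = 1 := by rw [h.inv h1, hg, star_one]
  have key : ∀ w : ℂ, 0 ≤ 1 + 2 * (w * (φ (y * g) - φ y)).re := by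
    intro w
    have h2 := h.family (univ : Finset (Fin 3)) ![g, 1, y⁻¹] ![w, -w, 1]
    simp only [Fin.sum_univ_three, Matrix.cons_val_zero, Matrix.cons_val_one, Matrix.cons_val,
      inv_one, one_mul, mul_one, inv_mul_cancel, h1, hg, hg', inv_inv, star_neg, star_one,
      mul_inv_cancel] at h2
    have h3 : φ (g⁻¹ * y⁻¹) = star (φ (y * g)) := by
      rw [← h.inv h1]; simp
    rw [h3, h.inv h1] at h2
    have h4 := (Complex.nonneg_iff.1 h2).1
    refine le_of_le_of_eq h4 ?_
    simp [Complex.mul_re]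
    ring
  by_contra hne
  set d := φ (y * g) - φ y with hd
  have hd0 : d ≠ 0 := sub_ne_zero.2 hne
  have hpos : 0 < ‖d‖ ^ 2 := by positivity
  have h2 := key (-(1 / (‖d‖ ^ 2 : ℝ) : ℂ) * star d)
  have h3 : -(1 / (‖d‖ ^ 2 : ℝ) : ℂ) * star d * d = -1 := by
    have h5 : star d * d = ((‖d‖ ^ 2 : ℝ) : ℂ) := by
      rw [mul_comm, Complex.star_def, Complex.mul_conj, Complex.normSq_eq_norm_sq]
    rw [mul_assoc, h5]
    have : ((‖d‖ ^ 2 : ℝ) : ℂ) ≠ 0 := by exact_mod_cast hpos.ne'
    field_simp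
  rw [h3] at h2
  norm_num at h2

end Pool.Agent.W763.Tr
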